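import Mathlib

/-!
# Powers of `1 + t` as formal power series, and a Vandermonde-type lemma
-/

set_option autoImplicit false
open Finset PowerSeries

namespace Pool.Agent.H35.Cardy

/-- the power series `(1 + t)^ν` -/
noncomputable def E (ν : ℂ) : ℂ⟦X⟧ := binomialSeries ℂ ν

lemma coeff_E (n : ℕ) (ν : ℂ) : coeff n (E ν) = Ring.choose ν n := by
  simp [E]

lemma E_add (a b : ℂ) : E (a + b) = E a * E b := by
  simp only [E, binomialSeries_add]

@[simp] lemma E_zero : E 0 = 1 := by
  simp [E]

lemma E_nat (n : ℕ) : E (n : ℂ) = (1 + X) ^ n := by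
  simp only [E, binomialSeries_nat]

lemma E_one : E 1 = 1 + X := by
  simpa using E_nat 1

lemma E_ne_zero (ν : ℂ) : E ν ≠ 0 := by
  intro h
  have h1 := E_add ν (-ν)
  rw [add_neg_cancel, E_zero, h, zero_mul] at h1
  exact one_ne_zero h1

lemma E_pow (ν : ℂ) (n : ℕ) : E ν ^ n = E (n * ν) := by
  induction n with
  | zero => simp
  | succ n ih =>
    rw [pow_succ, ih, ← E_add]
    push_cast
    ring_nf

lemma fac_mul_ch (ν : ℂ) (n : ℕ) :
    (n.factorial : ℂ) * Ring.choose ν n = ∏ i ∈ range n, (ν - i) := by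
  have h := Ring.descPochhammer_eq_factorial_smul_choose ν n
  rw [nsmul_eq_mul] at h
  rw [← h]
  induction n with
  | zero => simp
  | succ n ih =>
    rw [prod_range_succ, descPochhammer_succ_right, Polynomial.smeval_mul, ih
      (by rw [Ring.descPochhammer_eq_factorial_smul_choose, nsmul_eq_mul])]
    congr 1
    rw [Polynomial.smeval_sub, Polynomial.smeval_X, Polynomial.smeval_natCast]
    simp

lemma ch_eq (ν : ℂ) (n : ℕ) :
    Ring.choose ν n = (∏ i ∈ range n, (ν - i)) / (n.factorial : ℂ) := by
  rw [← fac_mul_ch, mul_div_cancel_left₀]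
  exact_mod_cast n.factorial_ne_zero

lemma ch_succ (ν : ℂ) (n : ℕ) :
    ((n : ℂ) + 1) * Ring.choose ν (n + 1) = (ν - n) * Ring.choose ν n := by
  have h1 := fac_mul_ch ν (n + 1)
  have h2 := fac_mul_ch ν n
  rw [prod_range_succ, ← h2, Nat.factorial_succ] at h1
  have h3 : (n.factorial : ℂ) ≠ 0 := by exact_mod_cast n.factorial_ne_zero
  apply mul_left_cancel₀ h3
  push_cast at h1
  linear_combination h1

lemma ch_flip (ν : ℂ) (n : ℕ) :
    Ring.choose ν n = (-1) ^ n * Ring.choose ((n : ℂ) - 1 - ν) n := by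
  rw [ch_eq, ch_eq, ← mul_div_assoc]
  congr 1
  have h : ∀ i ∈ range n, ν - ((n - 1 - i : ℕ) : ℂ) = (-1) * ((n : ℂ) - 1 - ν - i) := by
    intro i hi
    rw [mem_range] at hi
    rw [Nat.cast_sub (by omega), Nat.cast_sub (by omega)]
    push_cast
    ring
  rw [← prod_range_reflect, prod_congr rfl h, prod_mul_distrib, prod_const, card_range]

lemma ch_nat (n k : ℕ) : Ring.choose (n : ℂ) k = (n.choose k : ℂ) := Ring.choose_natCast n k

/-- a Vandermonde convolution -/
lemma vand (k : ℕ) (ν : ℂ) :
    ∑ i ∈ range (k + 1), (-1 : ℂ) ^ i * ((k + i).choose i : ℂ) * Ring.choose ν (k - i)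
      = Ring.choose (ν - k - 1) k := by
  have h := Ring.add_choose_eq (r := -((k : ℂ) + 1)) (s := ν) k (Commute.all _ _)
  rw [Finset.Nat.sum_antidiagonal_eq_sum_range_succ_mk] at h
  rw [show ν - k - 1 = -((k : ℂ) + 1) + ν by ring, h]
  apply sum_congr rfl
  intro i _
  congr 1
  rw [ch_flip, show (i : ℂ) - 1 - -((k : ℂ) + 1) = ((k + i : ℕ) : ℂ) by push_cast; ring, ch_nat]

/-- powers of `1+t` with distinct exponents: the linear combinations of `n` such powers are
determined by their first `n` coefficients -/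
lemma van {ι : Type*} [Fintype ι] (c ν : ι → ℂ) (hν : Function.Injective ν)
    (h : ∀ n < Fintype.card ι, ∑ i, c i * Ring.choose (ν i) n = 0) : c = 0 := by
  classical
  have key : ∀ m n, m + n < Fintype.card ι →
      ∑ i, c i * (ν i ^ m * Ring.choose (ν i) n) = 0 := by
    intro m
    induction m with
    | zero => intro n hn; simpa using h n (by omega)
    | succ m ih =>
      intro n hn
      have e : ∀ i, c i * (ν i ^ (m + 1) * Ring.choose (ν i) n) =
          ((n : ℂ) + 1) * (c i * (ν i ^ m * Ring.choose (ν i) (n + 1))) +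
            n * (c i * (ν i ^ m * Ring.choose (ν i) n)) := by
        intro i
        linear_combination (-(c i * ν i ^ m)) * ch_succ (ν i) n
      rw [sum_congr rfl (fun i _ => e i), sum_add_distrib, ← mul_sum, ← mul_sum,
        ih (n + 1) (by omega), ih n (by omega)]
      simp
  let e := Fintype.equivFin ι
  have h1 : (fun j => c (e.symm j)) = 0 := by
    apply Matrix.eq_zero_of_forall_pow_sum_mul_pow_eq_zero (f := fun j => ν (e.symm j))
    · exact hν.comp e.symm.injective
    · intro i
      have h2 := key i 0 (by simp)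
      simp only [Ring.choose_zero_right, mul_one] at h2
      rw [← h2]
      exact e.symm.sum_comp (fun j => c j * ν j ^ (i : ℕ))
  funext i
  have h2 := congrFun h1 (e i)
  simpa using h2

end Pool.Agent.H35.Cardy
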