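import Pool.Agent.H72.Cardy.Defs

/-!
# Divided differences at the repeated node `2`
-/

set_option autoImplicit false
open Finset Polynomial Pool.Agent.H72.Cardy

namespace Pool.Agent.H35.Cardy

lemma div_spec (p : ℂ[X]) : p = C (p.eval 2) + (X - C 2) * (p /ₘ (X - C 2)) := by
  conv_lhs => rw [← modByMonic_add_div p (X - C (2 : ℂ))]
  rw [modByMonic_X_sub_C_eq_C_eval]

lemma taylor_spec (p : ℂ[X]) :
    taylor 2 p = C (p.eval 2) + X * taylor 2 (p /ₘ (X - C 2)) := by
  conv_lhs => rw [div_spec p]
  rw [map_add, taylor_mul, taylor_C, map_sub, taylor_X, taylor_C]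
  ring

/-- the `i`-th Taylor coefficient at `2` -/
noncomputable def tc (p : ℂ[X]) (i : ℕ) : ℂ := (taylor 2 p).coeff i

lemma tc_zero (p : ℂ[X]) : tc p 0 = p.eval 2 := by
  rw [tc, taylor_coeff_zero]

lemma tc_succ (p : ℂ[X]) (i : ℕ) : tc p (i + 1) = tc (p /ₘ (X - C 2)) i := by
  rw [tc, taylor_spec, coeff_add, coeff_C_succ, coeff_X_mul, zero_add, tc]

lemma dd_replicate (p : ℂ[X]) (i : ℕ) : dd p (List.replicate (i + 1) 2) = tc p i := by
  induction i generalizing p with
  | zero => rw [tc_zero]; simp [dd]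
  | succ i ih =>
    rw [tc_succ, ← ih, List.replicate_succ, List.replicate_succ, dd, ← List.replicate_succ]

lemma Alt_rep (f : ℕ → ℂ[X]) (w : ℕ) : Alt f (List.replicate w 2) =
    (Matrix.of fun i j : Fin w => tc (f j) i).det := by
  rw [Alt, ← Matrix.det_submatrix_equiv_self (finCongr (List.length_replicate (n := w) (a := (2 : ℂ))).symm)]
  congr 1
  ext i j
  simp only [Matrix.submatrix_apply, Matrix.of_apply, finCongr_apply, Fin.val_cast,
    List.take_replicate]
  rw [min_eq_left (show (i : ℕ) + 1 ≤ w from i.2), dd_replicate]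

/-- the Taylor coefficient matrix -/
noncomputable def N (w : ℕ) : Matrix (Fin w) (Fin w) ℂ := Matrix.of fun i j => tc (pb j) i

lemma S_rep (w : ℕ) : S (List.replicate w 2) = (N w).det := by
  rw [S, Alt_rep, N]

lemma D_rep (h : ℂ[X]) (w : ℕ) : D h (List.replicate (w + 1) 2) =
    ((N (w + 1)).updateCol (Fin.last w) (fun i => tc h i)).det := by
  rw [D, Alt_rep]
  congr 1
  ext i j
  rw [Matrix.of_apply, Matrix.updateCol_apply, N, Matrix.of_apply, List.length_replicate]
  by_cases hj : j = Fin.last w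
  · rw [if_pos hj, if_pos (by rw [hj]; simp)]
  · rw [if_neg hj, if_neg]
    intro h1
    apply hj
    ext
    simpa using h1

lemma quo_spec (w : ℕ) (p : ℂ[X]) :
    p = ∑ i ∈ range w, C (tc p i) * (X - C 2) ^ i +
      (X - C 2) ^ w * quo p (List.replicate w 2) := by
  induction w generalizing p with
  | zero => simp [quo]
  | succ w ih =>
    have e1 : quo p (List.replicate (w + 1) 2) =
        quo (p /ₘ (X - C 2)) (List.replicate w 2) := by
      simp [quo, List.replicate_succ]
    rw [e1, sum_range_succ', tc_zero]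
    conv_lhs => rw [div_spec p, ih (p /ₘ (X - C 2))]
    have e2 : ∑ i ∈ range w, C (tc p (i + 1)) * (X - C (2 : ℂ)) ^ (i + 1) =
        (X - C 2) * ∑ i ∈ range w, C (tc (p /ₘ (X - C 2)) i) * (X - C 2) ^ i := by
      rw [mul_sum]
      apply sum_congr rfl
      intro i _
      rw [tc_succ, pow_succ]
      ring
    rw [e2, pow_succ]
    ring

/-- A linear functional killing the multiples of `(X-2)^w` and dual to the last basis vector
computes the last Cramer quotient. -/
lemma D_eq_of_functional (w : ℕ) (L : ℂ[X] →ₗ[ℂ] ℂ)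
    (h0 : ∀ p, L ((X - C 2) ^ (w + 1) * p) = 0)
    (h1 : ∀ j < w, L (pb j) = 0) (h2 : L (pb w) = 1) (h : ℂ[X]) :
    D h (List.replicate (w + 1) 2) = S (List.replicate (w + 1) 2) * L h := by
  have hL : ∀ p : ℂ[X], L p = ∑ i : Fin (w + 1), L ((X - C 2) ^ (i : ℕ)) * tc p i := by
    intro p
    conv_lhs => rw [quo_spec (w + 1) p]
    rw [map_add, h0, add_zero, map_sum, Fin.sum_univ_eq_sum_range
      (fun i => L ((X - C 2) ^ i) * tc p i)]
    apply sum_congr rfl
    intro i _
    rw [← smul_eq_C_mul, map_smul, smul_eq_mul, mul_comm]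
  set lam : Fin (w + 1) → ℂ := fun i => L ((X - C 2) ^ (i : ℕ)) with hlam
  have hv : ∀ j : Fin (w + 1), ∑ i, lam i * N (w + 1) i j = if j = Fin.last w then 1 else 0 := by
    intro j
    have : ∑ i, lam i * N (w + 1) i j = L (pb j) := by
      rw [hL]
      rfl
    rw [this]
    by_cases hj : j = Fin.last w
    · rw [if_pos hj, hj]
      simpa using h2
    · rw [if_neg hj]
      apply h1
      have h3 := j.2
      have h4 : (j : ℕ) ≠ w := fun h => hj (by ext; simpa using h)
      omega
  rw [D_rep, S_rep, hL h]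
  have hc := Matrix.mulVec_cramer (N (w + 1)) (fun i => tc h i)
  have hd : ∑ i, lam i * (Matrix.mulVec (N (w + 1)) (Matrix.cramer (N (w + 1)) (fun i => tc h i))) i
      = ∑ i, lam i * ((N (w + 1)).det • (fun i : Fin (w + 1) => tc h i)) i := by rw [hc]
  simp only [Matrix.mulVec, dotProduct, Pi.smul_apply, smul_eq_mul, mul_sum] at hd
  rw [sum_comm] at hd
  have he : ∑ j, (∑ i, lam i * N (w + 1) i j) * Matrix.cramer (N (w + 1)) (fun i => tc h i) j =
      Matrix.cramer (N (w + 1)) (fun i => tc h i) (Fin.last w) := by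
    simp only [hv, ite_mul, one_mul, zero_mul, sum_ite_eq', mem_univ, if_true]
  rw [← Matrix.cramer_apply, ← he, mul_sum]
  simp only [sum_mul]
  calc _ = _ := by
        apply sum_congr rfl; intro j _; apply sum_congr rfl; intro i _; rw [mul_assoc]
    _ = _ := hd
    _ = _ := by apply sum_congr rfl; intro i _; ring

end Pool.Agent.H35.Cardy
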