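import Pool.Agent.H35.Cardy.Pade
import Pool.Agent.H35.Cardy.Rep

/-!
# The functional computing the last Cramer quotient at the node `2`
-/

set_option autoImplicit false
open Finset PowerSeries Pool.Agent.H72.Cardy

namespace Pool.Agent.H35.Cardy

/-- substitution of `(1+t)^(1/3) + (1+t)^(-1/3)` -/
noncomputable def ev : Polynomial ℂ →ₐ[ℂ] ℂ⟦X⟧ := Polynomial.aeval (E (1 / 3) + E (-1 / 3))

lemma E_mul_cancel : E (1 / 3) * E (-1 / 3) = 1 := by
  rw [← E_add, ← E_zero]; norm_num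

lemma E_cube : E (1 / 3) ^ 3 = E 1 := by
  rw [E_pow]; norm_num

lemma E_cube' : E (-1 / 3) ^ 3 = E (-1) := by
  rw [E_pow]; norm_num

lemma ev_X : ev Polynomial.X = E (1 / 3) + E (-1 / 3) := by
  simp [ev]

lemma ev_T : ev T = E 1 + E (-1) := by
  rw [T, map_sub, map_pow, map_mul, ev_X, map_ofNat, ← E_cube, ← E_cube']
  linear_combination (3 * E (1 / 3) + 3 * E (-1 / 3)) * E_mul_cancel

lemma X_dvd_sub (a b : ℂ) : (X : ℂ⟦X⟧) ∣ E a - E b := by
  rw [X_dvd_iff, map_sub]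
  simp [E]

lemma ev_sub2 : ev (Polynomial.X - Polynomial.C 2) = E (-1 / 3) * (E (1 / 3) - E 0) ^ 2 := by
  rw [map_sub, ev_X, E_zero]
  have : ev (Polynomial.C 2) = 2 := by
    rw [show (Polynomial.C (2 : ℂ)) = 2 from map_ofNat _ 2, map_ofNat]
  rw [this]
  linear_combination (2 - E (1 / 3)) * E_mul_cancel

lemma dvd_ev_sub2 : (X : ℂ⟦X⟧) ^ 2 ∣ ev (Polynomial.X - Polynomial.C 2) := by
  rw [ev_sub2]
  exact Dvd.dvd.mul_left (pow_dvd_pow_of_dvd (X_dvd_sub _ _) 2) _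

lemma dvd_ev_pow (w : ℕ) (p : Polynomial ℂ) :
    (X : ℂ⟦X⟧) ^ (2 * w) ∣ ev ((Polynomial.X - Polynomial.C 2) ^ w * p) := by
  rw [map_mul, map_pow, pow_mul]
  exact Dvd.dvd.mul_right (pow_dvd_pow_of_dvd dvd_ev_sub2 w) _

/-- binomial expansion -/
lemma T_expand (i : ℕ) (μ : ℂ) : ev (T ^ i) * E μ =
    ∑ s ∈ range (i + 1), C (i.choose s : ℂ) * E (μ - i + 2 * s) := by
  rw [map_pow, ev_T, add_pow, sum_mul]
  apply sum_congr rfl
  intro s hs
  rw [mem_range] at hs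
  rw [E_pow, E_pow, mul_assoc, mul_assoc, ← mul_assoc (E (((i - s : ℕ) : ℂ) * -1)),
    mul_comm (E (((i - s : ℕ) : ℂ) * -1)), mul_assoc, ← E_add, ← mul_assoc (E _), mul_comm (E _),
    mul_assoc, ← E_add, map_natCast]
  congr 2
  rw [Nat.cast_sub (by omega)]
  ring

lemma coeff_E_Bs (w n : ℕ) (hn : n + 1 ≤ w) :
    coeff (2 * w - 1) (E n * Bs w) = if n + 1 = w then 1 else 0 := by
  rw [Bs, mul_sum, map_sum, sum_eq_single 0]
  · rw [bt_zero, show E (n : ℂ) * (C 1 * X ^ (w - 0)) = X ^ w * E n by simp [mul_comm],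
      coeff_X_pow_mul', if_pos (by omega), coeff_E, ch_nat, show 2 * w - 1 - w = w - 1 by omega]
    by_cases h : n + 1 = w
    · rw [if_pos h, show w - 1 = n by omega, Nat.choose_self, Nat.cast_one]
    · rw [if_neg h, Nat.choose_eq_zero_of_lt (by omega), Nat.cast_zero]
  · intro b hb hb0
    rw [mem_range] at hb
    rw [mul_left_comm, coeff_C_mul, mul_comm (E _), coeff_X_pow_mul', if_pos (by omega), coeff_E,
      ch_nat, Nat.choose_eq_zero_of_lt (by omega), Nat.cast_zero, mul_zero]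
  · intro h
    simp at h

lemma coeff_E_Bs' (w n : ℕ) (hn : n + 1 ≤ w) :
    coeff (2 * w - 1) (E ((n : ℂ) - 2 / 3) * Bs w) = if n = 0 then -1 else 0 := by
  have e : E ((n : ℂ) - 2 / 3) * Bs w = E ((n : ℂ) - 1) * rho w - E ((n : ℂ) - 1) * As w := by
    rw [rho, mul_add, ← mul_assoc, ← E_add]
    ring_nf
  have h0 : coeff (2 * w - 1) (E ((n : ℂ) - 1) * rho w) = 0 := by
    have h1 : (X : ℂ⟦X⟧) ^ (2 * w + 1) ∣ E ((n : ℂ) - 1) * rho w := Dvd.dvd.mul_left (dvd_rho w) _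
    exact (X_pow_dvd_iff.1 h1) _ (by omega)
  have e2 : E ((n : ℂ) - 1) * As w = ∑ b ∈ range (w + 1),
      C (-(bt w b) * (-1) ^ (w - b)) * (X ^ (w - b) * E ((b : ℂ) + n - 1)) := by
    rw [As, mul_neg, mul_sum, ← sum_neg_distrib]
    apply sum_congr rfl
    intro b _
    rw [show (b : ℂ) + n - 1 = n - 1 + b by ring, E_add, neg_pow (X : ℂ⟦X⟧)]
    simp only [map_mul, map_neg, map_pow, map_one]
    ring
  rw [e, map_sub, h0, zero_sub, e2, map_sum, sum_eq_single 0]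
  · rw [bt_zero, coeff_C_mul, coeff_X_pow_mul', if_pos (by omega), coeff_E]
    by_cases h : n = 0
    · subst h
      rw [if_pos rfl, ch_flip, show (((2 * w - 1 - (w - 0) : ℕ) : ℂ) - 1 - (((0 : ℕ) : ℂ) + (0 : ℕ) - 1)) =
        ((2 * w - 1 - (w - 0) : ℕ) : ℂ) by push_cast; ring, ch_nat, Nat.choose_self]
      have h2 : (-1 : ℂ) ^ (w - 0) * (-1) ^ (2 * w - 1 - (w - 0)) = -1 := by
        rw [← pow_add, show w - 0 + (2 * w - 1 - (w - 0)) = 2 * (w - 1) + 1 by omega, pow_succ,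
          pow_mul]
        norm_num
      push_cast
      linear_combination h2
    · rw [if_neg h, show (((0 : ℕ) : ℂ) + n - 1) = ((n - 1 : ℕ) : ℂ) by
        rw [Nat.cast_sub (by omega)]; push_cast; ring, ch_nat,
        Nat.choose_eq_zero_of_lt (by omega)]
      simp
  · intro b hb hb0
    rw [mem_range] at hb
    rw [coeff_C_mul, coeff_X_pow_mul', if_pos (by omega), coeff_E,
      show ((b : ℂ) + n - 1) = ((b + n - 1 : ℕ) : ℂ) by
        rw [Nat.cast_sub (by omega)]; push_cast; ring, ch_nat,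
        Nat.choose_eq_zero_of_lt (by omega)]
    simp
  · intro h
    simp at h

/-- the functional -/
noncomputable def Lam (a : ℕ) : Polynomial ℂ →ₗ[ℂ] ℂ where
  toFun h := 1 / 2 * coeff (2 * (2 * a + 1) - 1)
    (ev h * ((E a - E ((a : ℂ) - 2 / 3)) * Bs (2 * a + 1)))
  map_add' p q := by rw [map_add, add_mul, map_add]; ring
  map_smul' c p := by
    rw [map_smul, smul_mul_assoc, map_smul, RingHom.id_apply, smul_eq_mul, smul_eq_mul]
    ring

lemma Lam_apply (a : ℕ) (h : Polynomial ℂ) : Lam a h = 1 / 2 * coeff (2 * (2 * a + 1) - 1)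
    (ev h * ((E a - E ((a : ℂ) - 2 / 3)) * Bs (2 * a + 1))) := rfl

lemma Lam_dvd (a : ℕ) (p : Polynomial ℂ) :
    Lam a ((Polynomial.X - Polynomial.C 2) ^ (2 * a + 1) * p) = 0 := by
  rw [Lam_apply]
  have h1 : (X : ℂ⟦X⟧) ^ (2 * (2 * a + 1)) ∣
      ev ((Polynomial.X - Polynomial.C 2) ^ (2 * a + 1) * p) *
        ((E a - E ((a : ℂ) - 2 / 3)) * Bs (2 * a + 1)) := Dvd.dvd.mul_right (dvd_ev_pow _ _) _
  rw [(X_pow_dvd_iff.1 h1) _ (by omega), mul_zero]

lemma Lam_even (a i : ℕ) (hi : i ≤ a) : Lam a (pb (2 * i)) = if i = a then 1 else 0 := by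
  have e0 : pb (2 * i) = T ^ i := by simp [pb]
  have e1 : ev (T ^ i) * ((E a - E ((a : ℂ) - 2 / 3)) * Bs (2 * a + 1)) =
      ∑ s ∈ range (i + 1), C (i.choose s : ℂ) * (E ((a - i + 2 * s : ℕ) : ℂ) * Bs (2 * a + 1) -
        E (((a - i + 2 * s : ℕ) : ℂ) - 2 / 3) * Bs (2 * a + 1)) := by
    rw [← mul_assoc, mul_sub, T_expand, T_expand, ← sum_sub_distrib, sum_mul]
    apply sum_congr rfl
    intro s _
    have : ((a - i + 2 * s : ℕ) : ℂ) = a - i + 2 * s := by
      push_cast [Nat.cast_sub hi]; ring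
    rw [this, show (a : ℂ) - 2 / 3 - i + 2 * s = a - i + 2 * s - 2 / 3 by ring]
    ring
  rw [Lam_apply, e0, e1, map_sum]
  have e2 : ∀ s ∈ range (i + 1), coeff (2 * (2 * a + 1) - 1)
      (C (i.choose s : ℂ) * (E ((a - i + 2 * s : ℕ) : ℂ) * Bs (2 * a + 1) -
        E (((a - i + 2 * s : ℕ) : ℂ) - 2 / 3) * Bs (2 * a + 1))) =
      (i.choose s : ℂ) * ((if a - i + 2 * s + 1 = 2 * a + 1 then 1 else 0) -
        (if a - i + 2 * s = 0 then -1 else 0)) := by
    intro s hs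
    rw [mem_range] at hs
    rw [coeff_C_mul, map_sub, coeff_E_Bs _ _ (by omega), coeff_E_Bs' _ _ (by omega)]
  rw [sum_congr rfl e2]
  by_cases h : i = a
  · subst h
    rw [if_pos rfl]
    simp only [mul_sub, sum_sub_distrib]
    rw [sum_eq_single i, sum_eq_single 0]
    · simp
      norm_num
    · intro s hs hs0
      rw [if_neg (by omega), mul_zero]
    · intro h; simp at h
    · intro s hs hs0
      rw [mem_range] at hs
      rw [if_neg (by omega), mul_zero]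
    · intro h; simp at h
  · rw [if_neg h, sum_eq_zero, mul_zero]
    intro s hs
    rw [mem_range] at hs
    rw [if_neg (by omega), if_neg (by omega)]
    ring

lemma Lam_odd (a i : ℕ) (hi : i < a) : Lam a (pb (2 * i + 1)) = 0 := by
  have e0 : pb (2 * i + 1) = T ^ i * Polynomial.X := by
    rw [pb]
    rw [show (2 * i + 1) / 2 = i by omega, show (2 * i + 1) % 2 = 1 by omega, pow_one]
  have e1 : ev (T ^ i * Polynomial.X) * ((E a - E ((a : ℂ) - 2 / 3)) * Bs (2 * a + 1)) =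
      ∑ s ∈ range (i + 1), C (i.choose s : ℂ) *
        (E (((a - i + 2 * s + 1 : ℕ) : ℂ) - 2 / 3) * Bs (2 * a + 1) -
          E ((a - 1 - i + 2 * s : ℕ) : ℂ) * Bs (2 * a + 1)) := by
    have e3 : ev Polynomial.X * (E a - E ((a : ℂ) - 2 / 3)) =
        E ((a : ℂ) + 1 / 3) - E ((a : ℂ) - 1) := by
      rw [ev_X, add_mul, mul_sub, mul_sub, ← E_add, ← E_add, ← E_add, ← E_add]
      ring_nf
    rw [map_mul, mul_assoc, ← mul_assoc (ev Polynomial.X), e3, ← mul_assoc, mul_sub, T_expand,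
      T_expand, ← sum_sub_distrib, sum_mul]
    apply sum_congr rfl
    intro s _
    have h1 : ((a - i + 2 * s + 1 : ℕ) : ℂ) = a - i + 2 * s + 1 := by
      push_cast [Nat.cast_sub hi.le]; ring
    have h2 : ((a - 1 - i + 2 * s : ℕ) : ℂ) = a - 1 - i + 2 * s := by
      rw [Nat.cast_add, Nat.cast_sub (by omega), Nat.cast_sub (by omega)]
      push_cast; ring
    rw [h1, h2, show (a : ℂ) + 1 / 3 - i + 2 * s = a - i + 2 * s + 1 - 2 / 3 by ring]
    ring
  rw [Lam_apply, e0, e1, map_sum, sum_eq_zero, mul_zero]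
  intro s hs
  rw [mem_range] at hs
  rw [coeff_C_mul, map_sub, coeff_E_Bs _ _ (by omega), coeff_E_Bs' _ _ (by omega),
    if_neg (by omega), if_neg (by omega)]
  ring

lemma D_eq_Lam (a : ℕ) (h : Polynomial ℂ) : D h (List.replicate (2 * a + 1) 2) =
    S (List.replicate (2 * a + 1) 2) * Lam a h := by
  apply D_eq_of_functional
  · exact Lam_dvd a
  · intro j hj
    rcases Nat.even_or_odd' j with ⟨i, rfl | rfl⟩
    · rw [Lam_even a i (by omega), if_neg (by omega)]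
    · exact Lam_odd a i (by omega)
  · rw [Lam_even a a le_rfl, if_pos rfl]

end Pool.Agent.H35.Cardy
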