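import Pool.Agent.H35.Cardy.SNe
import Pool.Agent.H23.Cardy.PF

/-!
# The homogeneous limit of the formula for the hitting probability
-/

set_option autoImplicit false
open Finset PowerSeries Pool.Agent.H72.Cardy

namespace Pool.Agent.H35.Cardy

lemma Sx_rep (w : ℕ) : Sx (List.replicate w 2) =
    (Matrix.of fun i j : Fin (w + 1) => if (i : ℕ) < w then Polynomial.C (tc (pb j) i)
      else quo (pb j) (List.replicate w 2)).det := by
  rw [Sx, ← Matrix.det_submatrix_equiv_self
    (finCongr (congrArg (· + 1) (List.length_replicate (n := w) (a := (2 : ℂ))).symm))]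
  congr 1
  ext1 i j
  simp only [Matrix.submatrix_apply, Matrix.of_apply, finCongr_apply, Fin.val_cast,
    List.take_replicate, List.length_replicate]
  by_cases h : (i : ℕ) < w
  · rw [if_pos h, if_pos h, min_eq_left (show (i : ℕ) + 1 ≤ w from h), dd_replicate]
  · rw [if_neg h, if_neg h]

/-- `(X-2)^w` times the polynomial `Sx` is a combination of basis functions -/
lemma G_expand (w : ℕ) : ∃ g : ℕ → ℂ, g w = S (List.replicate w 2) ∧
    ((Polynomial.X : Polynomial ℂ) - Polynomial.C 2) ^ w * Sx (List.replicate w 2) =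
      ∑ j ∈ range (w + 1), Polynomial.C (g j) * pb j := by
  classical
  set M : Matrix (Fin (w + 1)) (Fin (w + 1)) (Polynomial ℂ) := Matrix.of fun i j : Fin (w + 1) =>
    if (i : ℕ) < w then Polynomial.C (tc (pb j) i) else quo (pb j) (List.replicate w 2) with hM
  set M' : Matrix (Fin (w + 1)) (Fin (w + 1)) (Polynomial ℂ) := Matrix.of fun i j : Fin (w + 1) =>
    if (i : ℕ) < w then Polynomial.C (tc (pb j) i) else pb j with hM'
  have h1 : ((Polynomial.X : Polynomial ℂ) - Polynomial.C 2) ^ w * M.det = M'.det := by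
    have a1 : ((Polynomial.X : Polynomial ℂ) - Polynomial.C 2) ^ w * M.det =
        (M.updateRow (Fin.last w) (((Polynomial.X : Polynomial ℂ) - Polynomial.C 2) ^ w • M (Fin.last w))).det := by
      rw [Matrix.det_updateRow_smul, Matrix.updateRow_eq_self]
    set c : Fin (w + 1) → Polynomial ℂ := fun i =>
      if (i : ℕ) < w then -((Polynomial.X : Polynomial ℂ) - Polynomial.C 2) ^ (i : ℕ) else 1 with hc
    have a2 := Matrix.det_updateRow_sum M' (Fin.last w) c
    have a3 : c (Fin.last w) = 1 := by simp [hc]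
    rw [a3, one_smul] at a2
    rw [a1, ← a2]
    congr 1
    ext1 i j
    rw [Matrix.updateRow_apply, Matrix.updateRow_apply]
    by_cases hi : i = Fin.last w
    · rw [if_pos hi, if_pos hi]
      rw [Finset.sum_apply]
      simp only [Pi.smul_apply, smul_eq_mul]
      rw [Fin.sum_univ_castSucc, a3, one_mul]
      have b1 : M (Fin.last w) j = quo (pb j) (List.replicate w 2) := by
        simp [hM]
      have b2 : M' (Fin.last w) j = pb j := by
        simp [hM']
      have b3 : ∀ i : Fin w, c i.castSucc * M' i.castSucc j =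
          -(Polynomial.C (tc (pb j) i) * ((Polynomial.X : Polynomial ℂ) - Polynomial.C 2) ^ (i : ℕ)) := by
        intro i
        simp only [hc, hM', Fin.val_castSucc, Matrix.of_apply, i.2, if_true]
        ring
      rw [b1, b2, sum_congr rfl (fun i _ => b3 i), sum_neg_distrib,
        Fin.sum_univ_eq_sum_range
          (fun i => Polynomial.C (tc (pb j) i) * ((Polynomial.X : Polynomial ℂ) - Polynomial.C (2 : ℂ)) ^ (i : ℕ))]
      rw [eq_neg_add_iff_add_eq]
      exact (quo_spec w (pb j)).symm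
    · rw [if_neg hi, if_neg hi]
      have hi' : (i : ℕ) < w := by
        have h3 := i.2
        have h4 : (i : ℕ) ≠ w := fun h => hi (by ext; simpa using h)
        omega
      simp only [hM, hM', Matrix.of_apply, hi', if_true]
  rw [Sx_rep, h1]
  set g : ℕ → ℂ := fun n => if h : n < w + 1 then (-1) ^ (w + n) *
    (Matrix.of fun (i j' : Fin w) => tc (pb ((⟨n, h⟩ : Fin (w + 1)).succAbove j')) i).det else 0
    with hg
  refine ⟨g, ?_, ?_⟩
  · rw [hg]
    simp only [Nat.lt_succ_self, dif_pos]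
    have e : ((-1 : ℂ)) ^ (w + w) = 1 := by rw [← two_mul, pow_mul]; norm_num
    rw [e, one_mul, S_rep, N]
    congr 1
    ext i j
    simp only [Matrix.of_apply]
    congr 2
    have : (⟨w, Nat.lt_succ_self w⟩ : Fin (w + 1)) = Fin.last w := rfl
    rw [this, Fin.succAbove_last, Fin.val_castSucc]
  · rw [Matrix.det_succ_row M' (Fin.last w), ← Fin.sum_univ_eq_sum_range
      (fun j => Polynomial.C (g j) * pb j)]
    apply sum_congr rfl
    intro j _
    have b2 : M' (Fin.last w) j = pb j := by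
      simp [hM']
    have b3 : (M'.submatrix (Fin.last w).succAbove j.succAbove).det =
        Polynomial.C (Matrix.of fun (i j' : Fin w) => tc (pb (j.succAbove j')) i).det := by
      rw [RingHom.map_det]
      congr 1
      ext1 i j'
      simp [hM']
    have b4 : g j = (-1) ^ (w + (j : ℕ)) *
        (Matrix.of fun (i j' : Fin w) => tc (pb (j.succAbove j')) i).det := by
      rw [hg]
      simp only [j.2, dif_pos]
    rw [b2, b3, b4, Polynomial.C_mul, Polynomial.C_pow, Polynomial.C_neg, Polynomial.C_1,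
      Fin.val_last]
    ring

/-! ### The coefficient identity -/

lemma coeff_term (p q n : ℕ) (μ : ℂ) (h : p ≤ n) (hq : n - p = q) :
    coeff n (X ^ p * E μ) = Ring.choose μ q := by
  rw [coeff_X_pow_mul', if_pos h, coeff_E, hq]

lemma neg_X_pow (m : ℕ) : (-X : ℂ⟦X⟧) ^ m = C ((-1) ^ m) * X ^ m := by
  rw [neg_pow]
  simp only [map_pow, map_neg, map_one]

lemma sum_expand (k w N : ℕ) (Z : ℂ⟦X⟧) (f g : ℕ → ℂ⟦X⟧) :
    coeff N (Z * ((∑ b ∈ range (k + 1), C (bt k b) * f b) *
      ∑ c ∈ range (w + 1), C (bt w c) * g c)) =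
    ∑ b ∈ range (k + 1), ∑ c ∈ range (w + 1), bt k b * bt w c * coeff N (Z * (f b * g c)) := by
  rw [sum_mul_sum, mul_sum, map_sum]
  apply sum_congr rfl
  intro b _
  rw [mul_sum, map_sum]
  apply sum_congr rfl
  intro c _
  rw [show Z * (C (bt k b) * f b * (C (bt w c) * g c)) =
    C (bt k b * bt w c) * (Z * (f b * g c)) by rw [map_mul]; ring, coeff_C_mul]

lemma BB (k w : ℕ) : coeff (w + k) (Bs k * Bs w) = 1 := by
  have h := sum_expand k w (w + k) 1 (fun b => X ^ (k - b)) (fun c => X ^ (w - c))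
  rw [one_mul] at h
  rw [Bs, Bs, h, sum_eq_single 0, sum_eq_single 0]
  · rw [one_mul, ← pow_add, coeff_X_pow, if_pos (by omega), bt_zero, bt_zero]
    ring
  · intro c hc hc0
    rw [mem_range] at hc
    rw [one_mul, ← pow_add, coeff_X_pow, if_neg (by omega), mul_zero]
  · intro h; simp at h
  · intro b hb hb0
    rw [mem_range] at hb
    apply sum_eq_zero
    intro c hc
    rw [mem_range] at hc
    rw [one_mul, ← pow_add, coeff_X_pow, if_neg (by omega), mul_zero]
  · intro h; simp at h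

lemma AA (k w : ℕ) (hN : Even (w + k)) : coeff (w + k) (E (-1) * (As k * As w)) = 1 := by
  have h := sum_expand k w (w + k) (E (-1)) (fun b => (-X) ^ (k - b) * E b)
    (fun c => (-X) ^ (w - c) * E c)
  have ht : ∀ b ∈ range (k + 1), ∀ c ∈ range (w + 1), coeff (w + k)
      (E (-1) * ((-X) ^ (k - b) * E b * ((-X) ^ (w - c) * E c))) =
      if b = 0 ∧ c = 0 then 1 else 0 := by
    intro b hb c hc
    rw [mem_range] at hb hc
    have e : E (-1) * ((-X : ℂ⟦X⟧) ^ (k - b) * E b * ((-X) ^ (w - c) * E c)) =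
        C ((-1) ^ (k - b + (w - c))) * (X ^ (k - b + (w - c)) * E ((b : ℂ) + c - 1)) := by
      rw [show (b : ℂ) + c - 1 = -1 + (b + c) by ring, E_add, E_add, neg_X_pow, neg_X_pow,
        pow_add (-1 : ℂ), map_mul, pow_add X]
      ring
    rw [e, coeff_C_mul, coeff_term _ (b + c) _ _ (by omega) (by omega)]
    by_cases hbc : b = 0 ∧ c = 0
    · obtain ⟨rfl, rfl⟩ := hbc
      rw [if_pos ⟨rfl, rfl⟩, Nat.sub_zero, Nat.sub_zero, add_comm k w, hN.neg_one_pow,
        Nat.add_zero, Ring.choose_zero_right, one_mul]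
    · rw [if_neg hbc, show ((b : ℂ) + c - 1) = ((b + c - 1 : ℕ) : ℂ) by
        rw [Nat.cast_sub (by omega)]; push_cast; ring, ch_nat,
        Nat.choose_eq_zero_of_lt (by omega)]
      simp
  rw [As, As, neg_mul_neg, h, sum_congr rfl (fun b hb => sum_congr rfl (fun c hc => by
    rw [ht b hb c hc]))]
  rw [sum_eq_single 0, sum_eq_single 0]
  · rw [if_pos ⟨rfl, rfl⟩, bt_zero, bt_zero]; ring
  · intro c _ hc0
    rw [if_neg (by tauto), mul_zero]
  · intro h; simp at h
  · intro b _ hb0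
    apply sum_eq_zero
    intro c _
    rw [if_neg (by tauto), mul_zero]
  · intro h; simp at h

lemma BA (k w : ℕ) (hN : Even (w + k)) : coeff (w + k) (E (-2 / 3) * (Bs k * As w)) =
    coeff (w + k) (E (-1 / 3) * (As k * Bs w)) := by
  have h1 := sum_expand k w (w + k) (E (-2 / 3)) (fun b => X ^ (k - b))
    (fun c => (-X) ^ (w - c) * E c)
  have h2 := sum_expand k w (w + k) (E (-1 / 3)) (fun b => (-X) ^ (k - b) * E b)
    (fun c => X ^ (w - c))
  rw [As, As, Bs, Bs, mul_neg, mul_neg, neg_mul, mul_neg, map_neg, map_neg, h1, h2]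
  congr 1
  apply sum_congr rfl
  intro b hb
  apply sum_congr rfl
  intro c hc
  rw [mem_range] at hb hc
  congr 1
  have e1 : E (-2 / 3) * ((X : ℂ⟦X⟧) ^ (k - b) * ((-X) ^ (w - c) * E c)) =
      C ((-1) ^ (w - c)) * (X ^ (k - b + (w - c)) * E ((c : ℂ) - 2 / 3)) := by
    rw [show (c : ℂ) - 2 / 3 = -2 / 3 + c by ring, E_add, neg_X_pow, pow_add X]
    ring
  have e2 : E (-1 / 3) * ((-X : ℂ⟦X⟧) ^ (k - b) * E b * X ^ (w - c)) =
      C ((-1) ^ (k - b)) * (X ^ (k - b + (w - c)) * E ((b : ℂ) - 1 / 3)) := by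
    rw [show (b : ℂ) - 1 / 3 = -1 / 3 + b by ring, E_add, neg_X_pow, pow_add X]
    ring
  rw [e1, e2, coeff_C_mul, coeff_C_mul, coeff_term _ (b + c) _ _ (by omega) (by omega),
    coeff_term _ (b + c) _ _ (by omega) (by omega), ch_flip ((c : ℂ) - 2 / 3),
    show (((b + c : ℕ) : ℂ) - 1 - ((c : ℂ) - 2 / 3)) = b - 1 / 3 by push_cast; ring,
    ← mul_assoc, ← pow_add]
  congr 1
  obtain ⟨n, hn⟩ := hN
  have h3 : (-1 : ℂ) ^ (w - c + (b + c)) * (-1) ^ (k - b) = 1 := by
    rw [← pow_add]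
    exact Even.neg_one_pow ⟨n, by omega⟩
  have h4 : (-1 : ℂ) ^ (k - b) * (-1) ^ (k - b) = 1 := by
    rw [← mul_pow]; norm_num
  linear_combination (-1 : ℂ) ^ (k - b) * h3 - (-1 : ℂ) ^ (w - c + (b + c)) * h4

/-- the two coefficients are opposite -/
lemma coeff_opp (k w : ℕ) (hN : Even (w + k)) :
    coeff (w + k) (E (-2 / 3) * (rho k * Bs w)) = - coeff (w + k) (E (-1 / 3) * (rho k * Bs w)) := by
  have e1 : E (-2 / 3) * (rho k * Bs w) = E (-1) * (rho k * rho w) -
      (E (-1) * (As k * As w) + E (-2 / 3) * (Bs k * As w)) := by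
    have a1 : E (-2 / 3) = E (-1) * E (1 / 3) := by rw [← E_add]; norm_num
    rw [a1, rho, rho]
    ring
  have e2 : E (-1 / 3) * (rho k * Bs w) = E (-1 / 3) * (As k * Bs w) + Bs k * Bs w := by
    rw [rho]
    linear_combination (Bs k * Bs w) * E_mul_cancel
  have h0 : coeff (w + k) (E (-1) * (rho k * rho w)) = 0 := by
    have h1 : (X : ℂ⟦X⟧) ^ (2 * k + 1 + (2 * w + 1)) ∣ E (-1) * (rho k * rho w) := by
      rw [pow_add]
      exact Dvd.dvd.mul_left (mul_dvd_mul (dvd_rho k) (dvd_rho w)) _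
    exact (X_pow_dvd_iff.1 h1) _ (by omega)
  rw [e1, e2, map_sub, map_add, map_add, h0, AA k w hN, BA k w hN, BB]
  ring

lemma coeff_val (k w : ℕ) (hk : Odd k) :
    coeff (w + k) (E (-1 / 3) * (rho k * Bs w)) = (Pool.Agent.H23.Cardy.S k w : ℂ) := by
  have e1 : E (-1 / 3) * (rho k * Bs w) = ∑ c ∈ range (w + 1), C (bt w c) * (X ^ (w - c) * sg k) := by
    rw [rho_eq, Bs, mul_sum, mul_sum]
    apply sum_congr rfl
    intro c _
    linear_combination (sg k * (C (bt w c) * X ^ (w - c))) * E_mul_cancel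
  have e2 : ∀ c ∈ range (w + 1), coeff (w + k) (C (bt w c) * (X ^ (w - c) * sg k)) =
      bt w c * coeff (k + c) (sg k) := by
    intro c hc
    rw [mem_range] at hc
    rw [coeff_C_mul, coeff_X_pow_mul', if_pos (by omega), show w + k - (w - c) = k + c by omega]
  rw [e1, map_sum, sum_congr rfl e2]
  have e3 : ∑ c ∈ range (w + 1), bt w c * coeff (k + c) (sg k) =
      ∑ c ∈ Ioc k w, bt w c * coeff (k + c) (sg k) := by
    symm
    apply sum_subset
    · intro c hc
      rw [mem_Ioc] at hc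
      rw [mem_range]
      omega
    · intro c hc hc'
      rw [mem_range] at hc
      rw [mem_Ioc] at hc'
      rw [coeff_sg_lo _ _ (by omega), mul_zero]
  rw [e3, Pool.Agent.H23.Cardy.S]
  push_cast
  rw [mul_sum]
  apply sum_congr rfl
  intro m hm
  rw [mem_Ioc] at hm
  rw [coeff_sg_hi _ _ (by omega), hk.neg_one_pow, bt]
  have hr : ((Pool.Agent.H23.Cardy.rm m : ℝ) : ℂ) = poch (1 / 3) m / poch (2 / 3) m := by
    rw [Pool.Agent.H23.Cardy.rm, poch, poch, ← prod_div_distrib]
    push_cast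
    apply prod_congr rfl
    intro i _
    have h1 : (3 * (i : ℂ) + 2) ≠ 0 := by
      have : ((3 * i + 2 : ℕ) : ℂ) ≠ 0 := by
        rw [Nat.cast_ne_zero]; omega
      push_cast at this
      exact this
    have h2 : (2 / 3 + (i : ℂ)) ≠ 0 := by
      intro h
      apply h1
      linear_combination 3 * h
    rw [div_eq_div_iff h1 h2]
    ring
  obtain ⟨n, rfl⟩ : ∃ n, m = n + 1 := ⟨m - 1, by omega⟩
  rw [hr, choose_eq (show 2 * (n + 1) ≤ w + (n + 1) by omega),
    choose_eq (show n + 1 + k ≤ 2 * (n + 1) - 1 by omega),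
    choose_eq (show k ≤ n + 1 - 1 by omega),
    show w + (n + 1) - 2 * (n + 1) = w - (n + 1) by omega,
    show 2 * (n + 1) - 1 - (n + 1 + k) = n + 1 - 1 - k by omega,
    show 2 * (n + 1) = 2 * n + 1 + 1 by omega, Nat.factorial_succ (2 * n + 1),
    show 2 * n + 1 + 1 - 1 = 2 * n + 1 by omega, show n + 1 - 1 = n by omega,
    Nat.factorial_succ n, show n + 1 + k = k + (n + 1) by omega]
  have f1 := fne n
  have f2 := fne (2 * n + 1)
  have f3 := fne (w - (n + 1))
  have f4 := fne (n - k)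
  have f5 := fne (k + (n + 1))
  have f6 := fne k
  have f7 := poch_two_thirds_ne (n + 1)
  have f8 : ((n : ℂ) + 1) ≠ 0 := by exact_mod_cast Nat.succ_ne_zero n
  push_cast
  rw [show (2 * (n : ℂ) + 1 + 1) = 2 * ((n : ℂ) + 1) by ring]
  field_simp

/-! ### The final formula -/

/-- **The homogeneous limit**: the numerator of the hitting probability, at the point where all
parameters coincide, is `S(2^w) S(2^k)` times an explicit finite sum; here `k = 2m+1`,
`w = 2m+2r+3`. -/
theorem hom_formula (m r : ℕ) :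
    D (((Polynomial.X : Polynomial ℂ) - Polynomial.C 2) * ((Polynomial.X : Polynomial ℂ) + 1) * (T - Polynomial.C 2) ^ r *
        ((Polynomial.X : Polynomial ℂ) - Polynomial.C 2) ^ (2 * m + 1) * Sx (List.replicate (2 * m + 1) 2))
      (List.replicate (2 * m + 2 * r + 3) 2) =
    S (List.replicate (2 * m + 2 * r + 3) 2) * (S (List.replicate (2 * m + 1) 2) *
      (Pool.Agent.H23.Cardy.S (2 * m + 1) (2 * m + 2 * r + 3) : ℂ)) := by
  obtain ⟨g, hg1, hg2⟩ := G_expand (2 * m + 1)
  have hu := uniq m _ g hg2 (dvd_mul_right _ _)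
  rw [hg1] at hu
  set G := ((Polynomial.X : Polynomial ℂ) - Polynomial.C 2) ^ (2 * m + 1) * Sx (List.replicate (2 * m + 1) 2) with hG
  set k := 2 * m + 1 with hk
  have hw : 2 * m + 2 * r + 3 = 2 * (m + r + 1) + 1 := by ring
  rw [hw, D_eq_Lam]
  congr 1
  rw [Lam_apply, show ((Polynomial.X : Polynomial ℂ) - Polynomial.C 2) * ((Polynomial.X : Polynomial ℂ) + 1) * (T - Polynomial.C 2) ^ r *
        ((Polynomial.X : Polynomial ℂ) - Polynomial.C 2) ^ k * Sx (List.replicate k 2) =
      ((Polynomial.X : Polynomial ℂ) - Polynomial.C 2) * ((Polynomial.X : Polynomial ℂ) + 1) * (T - Polynomial.C 2) ^ r * G by rw [hG]; ring]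
  set w := 2 * (m + r + 1) + 1 with hw'
  have hC2 : ev (Polynomial.C 2) = 2 := by
    rw [show (Polynomial.C (2 : ℂ)) = 2 from map_ofNat _ 2, map_ofNat]
  have hX : (X : ℂ⟦X⟧) = E 1 - 1 := by rw [E_one]; ring
  have c1 : ev (((Polynomial.X : Polynomial ℂ) - Polynomial.C 2) * ((Polynomial.X : Polynomial ℂ) + 1)) = X * (E (-1 / 3) - E (-2 / 3)) := by
    have a1 : E (-2 / 3) = E (-1 / 3) * E (-1 / 3) := by rw [← E_add]; norm_num
    have a2 : (X : ℂ⟦X⟧) = E (1 / 3) * E (1 / 3) * E (1 / 3) - 1 := by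
      rw [hX, ← E_cube]; ring
    rw [map_mul, map_sub, map_add, ev_X, hC2, map_one, a1, a2]
    linear_combination (-(E (1 / 3)) ^ 2 + E (1 / 3) * (E (1 / 3) * E (-1 / 3) + 1) + 2) *
      E_mul_cancel
  have c2 : ev (T - Polynomial.C 2) = X ^ 2 * E (-1) := by
    have a1 : E 1 * E (-1) = 1 := by rw [← E_add]; norm_num
    rw [map_sub, ev_T, hC2, hX]
    linear_combination (2 - E 1) * a1
  have c3 : ev (((Polynomial.X : Polynomial ℂ) - Polynomial.C 2) * ((Polynomial.X : Polynomial ℂ) + 1) * (T - Polynomial.C 2) ^ r * G) *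
      ((E ((m + r + 1 : ℕ) : ℂ) - E (((m + r + 1 : ℕ) : ℂ) - 2 / 3)) * Bs w) =
      X ^ (2 * r + 1) * (C (S (List.replicate k 2)) *
        (E (-1 / 3) * (rho k * Bs w) - E (-2 / 3) * (rho k * Bs w))) := by
    have a1 : E ((m + r + 1 : ℕ) : ℂ) - E (((m + r + 1 : ℕ) : ℂ) - 2 / 3) =
        E (r : ℂ) * (E ((m : ℂ) + 1) - E ((m : ℂ) + 1 / 3)) := by
      rw [mul_sub, ← E_add, ← E_add]
      push_cast
      ring_nf
    have a2 : E (-1) ^ r * E (r : ℂ) = 1 := by
      rw [E_pow, ← E_add, ← E_zero]; ring_nf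
    rw [map_mul, map_mul, map_pow, c1, c2, a1, mul_pow, ← pow_mul]
    linear_combination (X * (E (-1 / 3) - E (-2 / 3)) * X ^ (2 * r) * Bs w * E (-1) ^ r *
      E (r : ℂ)) * hu + (X ^ (2 * r + 1) * (C (S (List.replicate k 2)) *
        (E (-1 / 3) * (rho k * Bs w) - E (-2 / 3) * (rho k * Bs w)))) * a2
  rw [c3, coeff_X_pow_mul', if_pos (by omega), show 2 * w - 1 - (2 * r + 1) = w + k by omega,
    coeff_C_mul, map_sub, coeff_opp k w ⟨2 * m + r + 2, by omega⟩, coeff_val k w ⟨m, hk⟩]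
  ring

/-- ratio form of `hom_formula` -/
theorem hom_ratio (m r : ℕ) :
    D (((Polynomial.X : Polynomial ℂ) - Polynomial.C 2) * ((Polynomial.X : Polynomial ℂ) + 1) * (T - Polynomial.C 2) ^ r *
        ((Polynomial.X : Polynomial ℂ) - Polynomial.C 2) ^ (2 * m + 1) * Sx (List.replicate (2 * m + 1) 2))
      (List.replicate (2 * m + 2 * r + 3) 2) /
    (S (List.replicate (2 * m + 2 * r + 3) 2) * S (List.replicate (2 * m + 1) 2)) =
      (Pool.Agent.H23.Cardy.S (2 * m + 1) (2 * m + 2 * r + 3) : ℂ) := by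
  have h1 := S_ne m
  have h2 := S_ne (m + r + 1)
  rw [show 2 * (m + r + 1) + 1 = 2 * m + 2 * r + 3 by ring] at h2
  rw [hom_formula, ← mul_assoc, mul_div_cancel_left₀ _ (mul_ne_zero h2 h1)]

end Pool.Agent.H35.Cardy
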