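import Pool.Agent.H35.Cardy.BinSer

/-!
# The Padé pair of `(1+t)^(1/3)`
-/

set_option autoImplicit false
open Finset PowerSeries

namespace Pool.Agent.H35.Cardy

/-- ascending Pochhammer -/
noncomputable def poch (a : ℂ) (n : ℕ) : ℂ := ∏ i ∈ range n, (a + i)

lemma poch_two_thirds_ne (n : ℕ) : poch (2 / 3) n ≠ 0 := by
  rw [poch, prod_ne_zero_iff]
  intro i _ h
  have h1 : ((3 * i + 2 : ℕ) : ℂ) = 0 := by push_cast; linear_combination 3 * h
  rw [Nat.cast_eq_zero] at h1
  omega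

/-- coefficients of the Padé denominators -/
noncomputable def bt (w b : ℕ) : ℂ :=
  ((w + b).factorial : ℂ) / (((w - b).factorial : ℂ) * (b.factorial : ℂ) * poch (2 / 3) b)

/-- the Padé denominator, a monic polynomial of degree `w` in `t` -/
noncomputable def Bs (w : ℕ) : ℂ⟦X⟧ := ∑ b ∈ range (w + 1), C (bt w b) * X ^ (w - b)

/-- the Padé numerator, a polynomial of degree `≤ w` in `t` -/
noncomputable def As (w : ℕ) : ℂ⟦X⟧ :=
  -∑ b ∈ range (w + 1), C (bt w b) * ((-X) ^ (w - b) * E b)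

/-- the Padé remainder -/
noncomputable def rho (w : ℕ) : ℂ⟦X⟧ := As w + E (1 / 3) * Bs w

/-- the remainder divided by `(1+t)^(1/3)` -/
noncomputable def sg (w : ℕ) : ℂ⟦X⟧ := E (-1 / 3) * As w + Bs w

lemma rho_eq (w : ℕ) : rho w = E (1 / 3) * sg w := by
  rw [rho, sg, mul_add, ← mul_assoc, ← E_add]
  norm_num

lemma bt_zero (w : ℕ) : bt w 0 = 1 := by
  have : ((w.factorial : ℕ) : ℂ) ≠ 0 := by exact_mod_cast w.factorial_ne_zero
  simp [bt, poch, this]

lemma fne (n : ℕ) : (n.factorial : ℂ) ≠ 0 := by exact_mod_cast n.factorial_ne_zero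

lemma choose_eq {n k : ℕ} (h : k ≤ n) :
    (n.choose k : ℂ) = (n.factorial : ℂ) / ((k.factorial : ℂ) * ((n - k).factorial : ℂ)) := by
  rw [eq_div_iff (mul_ne_zero (fne _) (fne _)), ← mul_assoc]
  exact_mod_cast Nat.choose_mul_factorial_mul_factorial h

lemma ch_A (b s : ℕ) : Ring.choose ((b : ℂ) - 1 / 3) (b + s) =
    poch (2 / 3) b * ((-1) ^ s * poch (1 / 3) s) / ((b + s).factorial : ℂ) := by
  rw [ch_eq, prod_range_add]
  congr 2
  · rw [poch, ← prod_range_reflect]
    apply prod_congr rfl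
    intro i hi
    rw [mem_range] at hi
    rw [Nat.cast_sub (by omega), Nat.cast_sub (by omega)]
    push_cast
    ring
  · rw [poch]
    have : ∀ i ∈ range s, (b : ℂ) - 1 / 3 - ((b + i : ℕ) : ℂ) = (-1) * (1 / 3 + i) := by
      intro i _
      push_cast
      ring
    rw [prod_congr rfl this, prod_mul_distrib, prod_const, card_range]

lemma ch_B (s j : ℕ) : Ring.choose (((s + j : ℕ) : ℂ) - 1 / 3) j =
    poch (2 / 3) (s + j) / (poch (2 / 3) s * (j.factorial : ℂ)) := by
  rw [ch_eq]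
  have h : (∏ i ∈ range j, (((s + j : ℕ) : ℂ) - 1 / 3 - i)) * poch (2 / 3) s
      = poch (2 / 3) (s + j) := by
    rw [poch, poch, prod_range_add, mul_comm]
    congr 1
    rw [← prod_range_reflect]
    apply prod_congr rfl
    intro i hi
    rw [mem_range] at hi
    rw [Nat.cast_sub (by omega), Nat.cast_sub (by omega)]
    push_cast
    ring
  rw [← h, div_eq_div_iff (fne j) (mul_ne_zero (poch_two_thirds_ne s) (fne j))]
  ring

lemma As_mul (w : ℕ) : E (-1 / 3) * As w =
    ∑ b ∈ range (w + 1), C (-(bt w b) * (-1) ^ (w - b)) * (X ^ (w - b) * E ((b : ℂ) - 1 / 3)) := by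
  rw [As, mul_neg, mul_sum, ← sum_neg_distrib]
  apply sum_congr rfl
  intro b _
  rw [show (b : ℂ) - 1 / 3 = -1 / 3 + b by ring, E_add, neg_pow (X : ℂ⟦X⟧)]
  simp only [map_mul, map_neg, map_pow, map_one]
  ring

lemma coeff_As_hi (w s : ℕ) (hs : 1 ≤ s) : coeff (w + s) (E (-1 / 3) * As w) =
    -((-1) ^ w * (-1) ^ s * poch (1 / 3) s * (w.factorial : ℂ) / ((w + s).factorial : ℂ) *
      ((s - 1).choose w : ℂ)) := by
  have hv := vand w ((w + s : ℕ) : ℂ)
  rw [show ((w + s : ℕ) : ℂ) - w - 1 = ((s - 1 : ℕ) : ℂ) by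
    rw [Nat.cast_sub hs]; push_cast; ring, ch_nat] at hv
  rw [← hv, As_mul, map_sum, mul_sum, ← sum_neg_distrib]
  apply sum_congr rfl
  intro b hb
  rw [mem_range] at hb
  rw [coeff_C_mul, coeff_X_pow_mul', if_pos (by omega), coeff_E,
    show w + s - (w - b) = b + s by omega, ch_A, ch_nat, bt, choose_eq (show b ≤ w + b by omega),
    choose_eq (show w - b ≤ w + s by omega), show w + b - b = w by omega,
    show w + s - (w - b) = b + s by omega]
  have h1 : (-1 : ℂ) ^ w = (-1) ^ (w - b) * (-1) ^ b := by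
    rw [← pow_add]; congr 1; omega
  have h2 : ((-1 : ℂ) ^ b) * (-1) ^ b = 1 := by rw [← mul_pow]; norm_num
  rw [h1]
  have f1 := fne w
  have f2 := fne b
  have f3 := fne (w - b)
  have f4 := fne (b + s)
  have f5 := fne (w + s)
  have f6 := poch_two_thirds_ne b
  field_simp
  linear_combination (((w + b).factorial : ℂ) * poch (1 / 3) s) * h2

lemma coeff_As_lo (w s : ℕ) (hs : s ≤ w) : coeff (w - s) (E (-1 / 3) * As w) = -bt w s := by
  have hv := vand w ((w - s : ℕ) : ℂ)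
  rw [show ((w - s : ℕ) : ℂ) - w - 1 = -1 - s by
    rw [Nat.cast_sub hs]; ring, ch_flip (-1 - (s : ℂ)),
    show (w : ℂ) - 1 - (-1 - (s : ℂ)) = ((w + s : ℕ) : ℂ) by push_cast; ring, ch_nat] at hv
  have hb : bt w s = (w.factorial : ℂ) / ((w - s).factorial : ℂ) / poch (2 / 3) s * (-1) ^ w *
      ((-1) ^ w * ((w + s).choose w : ℂ)) := by
    have h2 : ((-1 : ℂ) ^ w) * (-1) ^ w = 1 := by rw [← mul_pow]; norm_num
    rw [bt, choose_eq (show w ≤ w + s by omega), show w + s - w = s by omega]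
    have f1 := fne w
    have f2 := fne s
    have f3 := fne (w - s)
    have f6 := poch_two_thirds_ne s
    field_simp
    linear_combination (-((w + s).factorial : ℂ)) * h2
  rw [hb, ← hv, As_mul, map_sum, mul_sum, ← sum_neg_distrib]
  apply sum_congr rfl
  intro b hb
  rw [mem_range] at hb
  rw [coeff_C_mul, coeff_X_pow_mul', ch_nat]
  by_cases hsb : s ≤ b
  · obtain ⟨j, rfl⟩ := Nat.exists_eq_add_of_le hsb
    rw [if_pos (by omega), coeff_E, show w - s - (w - (s + j)) = j by omega, ch_B, bt,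
      choose_eq (show s + j ≤ w + (s + j) by omega),
      choose_eq (show w - (s + j) ≤ w - s by omega), show w + (s + j) - (s + j) = w by omega,
      show w - s - (w - (s + j)) = j by omega]
    have h1 : (-1 : ℂ) ^ w = (-1) ^ (w - (s + j)) * (-1) ^ (s + j) := by
      rw [← pow_add]; congr 1; omega
    have h2 : ((-1 : ℂ) ^ (s + j)) * (-1) ^ (s + j) = 1 := by rw [← mul_pow]; norm_num
    rw [h1]
    have f1 := fne w
    have f2 := fne (s + j)
    have f3 := fne (w - (s + j))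
    have f4 := fne j
    have f5 := fne (w - s)
    have f6 := poch_two_thirds_ne s
    have f7 := poch_two_thirds_ne (s + j)
    field_simp
    rw [← add_assoc]
    linear_combination (((w + s + j).factorial : ℂ)) * h2
  · rw [if_neg (by omega), Nat.choose_eq_zero_of_lt (show w - s < w - b by omega)]
    simp

lemma coeff_Bs_lo (w s : ℕ) (hs : s ≤ w) : coeff (w - s) (Bs w) = bt w s := by
  rw [Bs, map_sum, sum_eq_single s]
  · rw [coeff_C_mul, coeff_X_pow, if_pos rfl, mul_one]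
  · intro b hb hbs
    rw [mem_range] at hb
    rw [coeff_C_mul, coeff_X_pow, if_neg (by omega), mul_zero]
  · intro h
    rw [mem_range] at h
    omega

lemma coeff_Bs_hi (w n : ℕ) (hn : w < n) : coeff n (Bs w) = 0 := by
  rw [Bs, map_sum]
  apply sum_eq_zero
  intro b _
  rw [coeff_C_mul, coeff_X_pow, if_neg (by omega), mul_zero]

lemma coeff_sg_lo (w n : ℕ) (hn : n ≤ 2 * w) : coeff n (sg w) = 0 := by
  rw [sg, map_add]
  rcases Nat.lt_or_ge w n with h | h
  · obtain ⟨s, rfl⟩ := Nat.exists_eq_add_of_lt h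
    rw [coeff_Bs_hi w _ (by omega), add_assoc, coeff_As_hi w (s + 1) (by omega),
      Nat.choose_eq_zero_of_lt (by omega)]
    simp
  · obtain ⟨s, hs, rfl⟩ : ∃ s ≤ w, n = w - s := ⟨w - n, by omega, by omega⟩
    rw [coeff_As_lo w s hs, coeff_Bs_lo w s hs]
    ring

lemma coeff_sg_hi (w s : ℕ) (hs : 1 ≤ s) : coeff (w + s) (sg w) =
    -((-1) ^ w * (-1) ^ s * poch (1 / 3) s * (w.factorial : ℂ) / ((w + s).factorial : ℂ) *
      ((s - 1).choose w : ℂ)) := by
  rw [sg, map_add, coeff_As_hi w s hs, coeff_Bs_hi w _ (by omega), add_zero]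

lemma dvd_sg (w : ℕ) : (X : ℂ⟦X⟧) ^ (2 * w + 1) ∣ sg w := by
  rw [X_pow_dvd_iff]
  intro m hm
  exact coeff_sg_lo w m (by omega)

lemma dvd_rho (w : ℕ) : (X : ℂ⟦X⟧) ^ (2 * w + 1) ∣ rho w := by
  rw [rho_eq]
  exact Dvd.dvd.mul_left (dvd_sg w) _

end Pool.Agent.H35.Cardy
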