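import Pool.Agent.H35.Cardy.Uniq

/-!
# Non-vanishing of the sum rule at the repeated node `2`
-/

set_option autoImplicit false
open Finset PowerSeries Pool.Agent.H72.Cardy

namespace Pool.Agent.H35.Cardy

lemma diff_ne (a b : ℂ) (h : a ≠ b) : E a - E b ≠ 0 := by
  intro h0
  have h1 := congrArg (coeff 1) h0
  rw [map_sub, coeff_E, coeff_E, map_zero, Ring.choose_one_right, Ring.choose_one_right] at h1
  exact h (sub_eq_zero.1 h1)

lemma const_ev (p : Polynomial ℂ) : constantCoeff (ev p) = p.eval 2 := by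
  have h1 : (constantCoeff (R := ℂ)) (ev p) =
      Polynomial.eval₂ ((constantCoeff (R := ℂ)).comp (algebraMap ℂ ℂ⟦X⟧))
        (constantCoeff (E (1 / 3) + E (-1 / 3))) p := by
    rw [ev, Polynomial.aeval_def, Polynomial.hom_eval₂]
  rw [h1]
  have h2 : (constantCoeff (R := ℂ)).comp (algebraMap ℂ ℂ⟦X⟧) = RingHom.id ℂ := by
    ext
    simp
  have h3 : constantCoeff (E (1 / 3) + E (-1 / 3)) = (2 : ℂ) := by
    rw [map_add]
    simp [E]
    norm_num
  rw [h2, h3, Polynomial.eval₂_id]

lemma ev_sub2_ne : ev (Polynomial.X - Polynomial.C 2) ≠ 0 := by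
  rw [ev_sub2]
  exact mul_ne_zero (E_ne_zero _) (pow_ne_zero _ (diff_ne _ _ (by norm_num)))

lemma ev_ne (p : Polynomial ℂ) (hp : p ≠ 0) : ev p ≠ 0 := by
  obtain ⟨g, hg, hn⟩ := Polynomial.exists_eq_pow_rootMultiplicity_mul_and_not_dvd p hp 2
  rw [hg, map_mul, map_pow]
  refine mul_ne_zero (pow_ne_zero _ ev_sub2_ne) ?_
  intro h
  apply hn
  rw [Polynomial.dvd_iff_isRoot, Polynomial.IsRoot, ← const_ev, h, map_zero]

lemma T_monic : T.Monic := by
  rw [T]
  monicity!

lemma T_natDegree : T.natDegree = 3 := by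
  rw [T]
  compute_degree!

lemma pb_monic (j : ℕ) : (pb j).Monic := by
  rw [pb]
  exact (T_monic.pow _).mul (Polynomial.monic_X.pow _)

lemma pb_natDegree (j : ℕ) : (pb j).natDegree = 3 * (j / 2) + j % 2 := by
  rw [pb, Polynomial.Monic.natDegree_mul (T_monic.pow _) (Polynomial.monic_X.pow _),
    T_monic.natDegree_pow, T_natDegree, Polynomial.natDegree_X_pow]
  ring

lemma pb_indep (n : ℕ) (c : ℕ → ℂ) (h : ∑ j ∈ range n, Polynomial.C (c j) * pb j = 0) :
    ∀ j < n, c j = 0 := by
  induction n with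
  | zero => intro j hj; omega
  | succ n ih =>
    have hn : c n = 0 := by
      have h1 := congrArg (fun p => Polynomial.coeff p (pb n).natDegree) h
      simp only [Polynomial.finsetSum_coeff, Polynomial.coeff_C_mul, Polynomial.coeff_zero] at h1
      rw [sum_range_succ, sum_eq_zero, zero_add] at h1
      · have h2 : (pb n).coeff (pb n).natDegree = 1 := (pb_monic n).coeff_natDegree
        rw [h2, mul_one] at h1
        exact h1
      · intro j hj
        rw [mem_range] at hj
        rw [Polynomial.coeff_eq_zero_of_natDegree_lt, mul_zero]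
        rw [pb_natDegree, pb_natDegree]
        omega
    rw [sum_range_succ, hn, Polynomial.C_0, zero_mul, add_zero] at h
    intro j hj
    rcases Nat.lt_succ_iff_lt_or_eq.1 hj with h1 | rfl
    · exact ih h j h1
    · exact hn

lemma tc_add (p q : Polynomial ℂ) (i : ℕ) : tc (p + q) i = tc p i + tc q i := by
  rw [tc, map_add, Polynomial.coeff_add, tc, tc]

/-- linear version of `tc` -/
noncomputable def tcl (i : ℕ) : Polynomial ℂ →ₗ[ℂ] ℂ where
  toFun p := tc p i
  map_add' p q := tc_add p q i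
  map_smul' c p := by
    rw [tc, Polynomial.smul_eq_C_mul, Polynomial.taylor_mul, Polynomial.taylor_C,
      Polynomial.coeff_C_mul, RingHom.id_apply, smul_eq_mul, tc]

/-- the sum rule does not vanish -/
theorem S_ne (a : ℕ) : S (List.replicate (2 * a + 1) 2) ≠ 0 := by
  rw [S_rep]
  intro h0
  obtain ⟨v, hv, h1⟩ := Matrix.exists_mulVec_eq_zero_iff.2 h0
  set g : ℕ → ℂ := fun j => if h : j < 2 * a + 1 then v ⟨j, h⟩ else 0 with hg
  have hgv : ∀ i : Fin (2 * a + 1), g i = v i := by
    intro i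
    rw [hg]
    exact dif_pos i.2
  set f : Polynomial ℂ := ∑ j ∈ range (2 * a + 1), Polynomial.C (g j) * pb j with hf
  have hf2 : f = ∑ j ∈ range (2 * a + 2), Polynomial.C (g j) * pb j := by
    rw [sum_range_succ, ← hf]
    simp [hg]
  have htc : ∀ i < 2 * a + 1, tc f i = 0 := by
    intro i hi
    have h2 := congrFun h1 ⟨i, hi⟩
    rw [Matrix.mulVec, dotProduct] at h2
    change ∑ j, N (2 * a + 1) ⟨i, hi⟩ j * v j = 0 at h2
    change tcl i f = 0
    rw [hf, map_sum, ← h2, ← Fin.sum_univ_eq_sum_range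
      (fun j => tcl i (Polynomial.C (g j) * pb j))]
    apply sum_congr rfl
    intro j _
    rw [← Polynomial.smul_eq_C_mul, map_smul, smul_eq_mul, hgv, mul_comm]
    rfl
  have hdvd : (Polynomial.X - Polynomial.C 2) ^ (2 * a + 1) ∣ f := by
    rw [quo_spec (2 * a + 1) f, sum_eq_zero, zero_add]
    · exact dvd_mul_right _ _
    · intro i hi
      rw [htc i (mem_range.1 hi), Polynomial.C_0, zero_mul]
  have h3 := uniq a f g hf2 hdvd
  have h4 : g (2 * a + 1) = 0 := by simp [hg]
  rw [h4, map_zero, zero_mul] at h3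
  have h5 : ev f = 0 := by
    rcases mul_eq_zero.1 h3 with h | h
    · exact h
    · exact absurd h (diff_ne _ _ (by
        intro h6
        have := add_left_cancel h6
        norm_num at this))
  have h6 : f = 0 := by
    by_contra hne
    exact ev_ne f hne h5
  apply hv
  funext i
  rw [← hgv]
  exact pb_indep _ g (by rw [← hf, h6]) i i.2

end Pool.Agent.H35.Cardy
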