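import Pool.Agent.H35.Cardy.Func

/-!
# Uniqueness of the Padé pair and non-vanishing of the sum rule
-/

set_option autoImplicit false
open Finset PowerSeries Pool.Agent.H72.Cardy

namespace Pool.Agent.H35.Cardy

/-- span of `m` consecutive powers -/
noncomputable def Sp (m : ℕ) (μ : ℂ) : Submodule ℂ ℂ⟦X⟧ :=
  Submodule.span ℂ {f | ∃ n : ℕ, n < m ∧ f = E ((n : ℂ) + μ)}

lemma mem_Sp {m n : ℕ} (μ : ℂ) (h : n < m) : E ((n : ℂ) + μ) ∈ Sp m μ :=
  Submodule.subset_span ⟨n, h, rfl⟩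

lemma Sp_mono {m m' : ℕ} (μ : ℂ) (h : m ≤ m') : Sp m μ ≤ Sp m' μ := by
  apply Submodule.span_mono
  rintro f ⟨n, hn, rfl⟩
  exact ⟨n, by omega, rfl⟩

lemma Sp_shift (m c m' : ℕ) (μ : ℂ) (h : m + c ≤ m') : Sp m ((c : ℂ) + μ) ≤ Sp m' μ := by
  apply Submodule.span_le.2
  rintro f ⟨n, hn, rfl⟩
  have := mem_Sp (n := n + c) (m := m') μ (by omega)
  push_cast at this
  rw [← add_assoc]
  exact this

lemma X_mul_mem (m : ℕ) (μ : ℂ) (f : ℂ⟦X⟧) (hf : f ∈ Sp m μ) : X * f ∈ Sp (m + 1) μ := by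
  induction hf using Submodule.span_induction with
  | mem f hf =>
    obtain ⟨n, hn, rfl⟩ := hf
    have : X * E ((n : ℂ) + μ) = E (((n + 1 : ℕ) : ℂ) + μ) - E ((n : ℂ) + μ) := by
      rw [show (((n + 1 : ℕ) : ℂ) + μ) = 1 + (n + μ) by push_cast; ring, E_add 1, E_one]
      ring
    rw [this]
    exact Submodule.sub_mem _ (mem_Sp μ (by omega)) (mem_Sp μ (by omega))
  | zero => rw [mul_zero]; exact Submodule.zero_mem _
  | add f g _ _ h1 h2 => rw [mul_add]; exact Submodule.add_mem _ h1 h2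
  | smul c f _ h => rw [mul_smul_comm]; exact Submodule.smul_mem _ _ h

lemma pow_sub_mem (m : ℕ) (μ : ℂ) : X ^ m * E μ - E ((m : ℂ) + μ) ∈ Sp m μ := by
  induction m with
  | zero => simp
  | succ m ih =>
    have e : X ^ (m + 1) * E μ - E (((m + 1 : ℕ) : ℂ) + μ) =
        X * (X ^ m * E μ - E ((m : ℂ) + μ)) - E ((m : ℂ) + μ) := by
      rw [show (((m + 1 : ℕ) : ℂ) + μ) = 1 + (m + μ) by push_cast; ring, E_add 1, E_one]
      ring
    rw [e]
    exact Submodule.sub_mem _ (X_mul_mem _ _ _ ih) (mem_Sp μ (by omega))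

lemma pow_mem (m m' : ℕ) (μ : ℂ) (h : m < m') : X ^ m * E μ ∈ Sp m' μ := by
  have h1 := Sp_mono μ h.le (pow_sub_mem m μ)
  have h2 := Submodule.add_mem _ h1 (mem_Sp μ h)
  simpa using h2

/-- the span of `2k+1` powers -/
noncomputable def W (k : ℕ) : Submodule ℂ ℂ⟦X⟧ := Sp (k + 1) 0 ⊔ Sp k (1 / 3)

lemma memW1 (k n : ℕ) (h : n ≤ k) : E (n : ℂ) ∈ W k := by
  have := mem_Sp (n := n) (m := k + 1) 0 (by omega)
  rw [add_zero] at this
  exact Submodule.mem_sup_left this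

lemma memW2 (k n : ℕ) (h : n < k) : E ((n : ℂ) + 1 / 3) ∈ W k :=
  Submodule.mem_sup_right (mem_Sp _ h)

lemma mem_W_C (k : ℕ) (c : ℂ) (f : ℂ⟦X⟧) (h : f ∈ W k) : C c * f ∈ W k := by
  rw [← smul_eq_C_mul]
  exact Submodule.smul_mem _ _ h

/-- the exponents -/
noncomputable def nu (k : ℕ) : Fin (k + 1) ⊕ Fin k → ℂ :=
  Sum.elim (fun n => (n : ℕ)) (fun n => ((n : ℕ) : ℂ) + 1 / 3)

lemma nu_inj (k : ℕ) : Function.Injective (nu k) := by
  rintro (a | a) (b | b) h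
  · simp only [nu, Sum.elim_inl, Nat.cast_inj] at h
    exact congrArg _ (Fin.ext h)
  · simp only [nu, Sum.elim_inl, Sum.elim_inr] at h
    have : ((3 * (a : ℕ) : ℕ) : ℂ) = ((3 * (b : ℕ) + 1 : ℕ) : ℂ) := by
      push_cast; linear_combination 3 * h
    rw [Nat.cast_inj] at this
    omega
  · simp only [nu, Sum.elim_inl, Sum.elim_inr] at h
    have : ((3 * (a : ℕ) + 1 : ℕ) : ℂ) = ((3 * (b : ℕ) : ℕ) : ℂ) := by
      push_cast; linear_combination 3 * h
    rw [Nat.cast_inj] at this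
    omega
  · simp only [nu, Sum.elim_inr, add_left_inj, Nat.cast_inj] at h
    exact congrArg _ (Fin.ext h)

lemma W_zero (k : ℕ) (f : ℂ⟦X⟧) (hf : f ∈ W k) (hd : (X : ℂ⟦X⟧) ^ (2 * k + 1) ∣ f) : f = 0 := by
  have h1 : W k ≤ Submodule.span ℂ (Set.range (fun i => E (nu k i))) := by
    apply sup_le
    · apply Submodule.span_le.2
      rintro f ⟨n, hn, rfl⟩
      apply Submodule.subset_span
      exact ⟨Sum.inl ⟨n, hn⟩, by simp [nu]⟩
    · apply Submodule.span_mono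
      rintro f ⟨n, hn, rfl⟩
      exact ⟨Sum.inr ⟨n, hn⟩, by simp [nu]⟩
  obtain ⟨c, rfl⟩ := (Submodule.mem_span_range_iff_exists_fun ℂ).1 (h1 hf)
  have hc : c = 0 := by
    apply van c (nu k) (nu_inj k)
    intro n hn
    have h2 := (X_pow_dvd_iff.1 hd) n (by
      simp only [Fintype.card_sum, Fintype.card_fin] at hn; omega)
    rw [map_sum] at h2
    rw [← h2]
    apply sum_congr rfl
    intro i _
    rw [map_smul, coeff_E, smul_eq_mul]
  rw [hc]
  simp

lemma As_mem (k : ℕ) : As k ∈ W k := by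
  rw [As]
  apply Submodule.neg_mem
  apply Submodule.sum_mem
  intro b hb
  rw [mem_range] at hb
  apply mem_W_C
  have e : (-X : ℂ⟦X⟧) ^ (k - b) * E b = C ((-1) ^ (k - b)) * (X ^ (k - b) * E b) := by
    rw [neg_pow]
    simp only [map_pow, map_neg, map_one]
    ring
  rw [e]
  apply mem_W_C
  apply Submodule.mem_sup_left
  have h1 := pow_mem (k - b) (k - b + 1) ((b : ℂ) + 0) (by omega)
  have h2 := Sp_shift (k - b + 1) b (k + 1) 0 (by omega) h1
  rw [add_zero] at h2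
  exact h2

lemma rho_mem (k : ℕ) : rho k - E ((k : ℂ) + 1 / 3) ∈ W k := by
  rw [rho, add_sub_assoc]
  apply Submodule.add_mem _ (As_mem k)
  apply Submodule.mem_sup_right
  rw [Bs, sum_range_succ', bt_zero, mul_add, add_sub_assoc]
  apply Submodule.add_mem
  · rw [mul_sum]
    apply Submodule.sum_mem
    intro b hb
    rw [mem_range] at hb
    rw [mul_left_comm, ← smul_eq_C_mul, mul_comm (E _)]
    apply Submodule.smul_mem
    exact pow_mem _ _ _ (by omega)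
  · rw [map_one, one_mul, Nat.sub_zero, mul_comm]
    exact pow_sub_mem k _

lemma E_diff (b : ℕ) : E ((b : ℂ) + 1) - E ((b : ℂ) + 1 / 3) =
    (E (1 / 3) - E (-1 / 3)) * E ((b : ℂ) + 2 / 3) := by
  rw [sub_mul, ← E_add, ← E_add]
  ring_nf

lemma ev_even_mem (b i : ℕ) (hi : i ≤ b) :
    ev (pb (2 * i)) * (E ((b : ℂ) + 1) - E ((b : ℂ) + 1 / 3)) ∈ W (2 * b + 1) := by
  have e0 : pb (2 * i) = T ^ i := by simp [pb]
  rw [e0, mul_sub, T_expand, T_expand]
  apply Submodule.sub_mem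
  · apply Submodule.sum_mem
    intro s hs
    rw [mem_range] at hs
    apply mem_W_C
    have : (b : ℂ) + 1 - i + 2 * s = ((b + 1 - i + 2 * s : ℕ) : ℂ) := by
      push_cast [Nat.cast_sub (show i ≤ b + 1 by omega)]; ring
    rw [this]
    exact memW1 _ _ (by omega)
  · apply Submodule.sum_mem
    intro s hs
    rw [mem_range] at hs
    apply mem_W_C
    have : (b : ℂ) + 1 / 3 - i + 2 * s = ((b - i + 2 * s : ℕ) : ℂ) + 1 / 3 := by
      push_cast [Nat.cast_sub hi]; ring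
    rw [this]
    exact memW2 _ _ (by omega)

lemma ev_odd_eq (b i : ℕ) (hi : i ≤ b) :
    ev (pb (2 * i + 1)) * (E ((b : ℂ) + 1) - E ((b : ℂ) + 1 / 3)) =
      ∑ s ∈ range (i + 1), C (i.choose s : ℂ) * E (((b + 1 - i + 2 * s : ℕ) : ℂ) + 1 / 3) -
      ∑ s ∈ range (i + 1), C (i.choose s : ℂ) * E ((b - i + 2 * s : ℕ) : ℂ) := by
  have e0 : pb (2 * i + 1) = T ^ i * Polynomial.X := by
    rw [pb]
    rw [show (2 * i + 1) / 2 = i by omega, show (2 * i + 1) % 2 = 1 by omega, pow_one]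
  have e3 : ev Polynomial.X * (E ((b : ℂ) + 1) - E ((b : ℂ) + 1 / 3)) =
      E ((b : ℂ) + 4 / 3) - E (b : ℂ) := by
    rw [ev_X, add_mul, mul_sub, mul_sub, ← E_add, ← E_add, ← E_add, ← E_add]
    ring_nf
  rw [e0, map_mul, mul_assoc, e3, mul_sub, T_expand, T_expand]
  congr 1
  · apply sum_congr rfl
    intro s _
    congr 2
    push_cast [Nat.cast_sub (show i ≤ b + 1 by omega)]; ring
  · apply sum_congr rfl
    intro s _
    congr 2
    push_cast [Nat.cast_sub hi]; ring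

lemma ev_odd_mem (b i : ℕ) (hi : i < b) :
    ev (pb (2 * i + 1)) * (E ((b : ℂ) + 1) - E ((b : ℂ) + 1 / 3)) ∈ W (2 * b + 1) := by
  rw [ev_odd_eq b i hi.le]
  apply Submodule.sub_mem
  · apply Submodule.sum_mem
    intro s hs
    rw [mem_range] at hs
    exact mem_W_C _ _ _ (memW2 _ _ (by omega))
  · apply Submodule.sum_mem
    intro s hs
    rw [mem_range] at hs
    exact mem_W_C _ _ _ (memW1 _ _ (by omega))

lemma ev_top_mem (b : ℕ) :
    ev (pb (2 * b + 1)) * (E ((b : ℂ) + 1) - E ((b : ℂ) + 1 / 3)) -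
      E (((2 * b + 1 : ℕ) : ℂ) + 1 / 3) ∈ W (2 * b + 1) := by
  rw [ev_odd_eq b b le_rfl, sum_range_succ, Nat.choose_self, Nat.cast_one, map_one, one_mul,
    show b + 1 - b + 2 * b = 2 * b + 1 by omega]
  have e : ∀ A B D : ℂ⟦X⟧, A + B - D - B = A - D := by intro A B D; ring
  rw [e]
  apply Submodule.sub_mem
  · apply Submodule.sum_mem
    intro s hs
    rw [mem_range] at hs
    exact mem_W_C _ _ _ (memW2 _ _ (by omega))
  · apply Submodule.sum_mem
    intro s hs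
    rw [mem_range] at hs
    exact mem_W_C _ _ _ (memW1 _ _ (by omega))

lemma ev_mem (b j : ℕ) (hj : j < 2 * b + 1) :
    ev (pb j) * (E ((b : ℂ) + 1) - E ((b : ℂ) + 1 / 3)) ∈ W (2 * b + 1) := by
  rcases Nat.even_or_odd' j with ⟨i, rfl | rfl⟩
  · exact ev_even_mem b i (by omega)
  · exact ev_odd_mem b i (by omega)

/-- uniqueness of the Padé pair -/
lemma uniq (b : ℕ) (G : Polynomial ℂ) (g : ℕ → ℂ)
    (hG : G = ∑ j ∈ range (2 * b + 2), Polynomial.C (g j) * pb j)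
    (hd : (Polynomial.X - Polynomial.C 2) ^ (2 * b + 1) ∣ G) :
    ev G * (E ((b : ℂ) + 1) - E ((b : ℂ) + 1 / 3)) = C (g (2 * b + 1)) * rho (2 * b + 1) := by
  rw [← sub_eq_zero]
  apply W_zero (2 * b + 1)
  · have e : ev G * (E ((b : ℂ) + 1) - E ((b : ℂ) + 1 / 3)) - C (g (2 * b + 1)) * rho (2 * b + 1) =
        ∑ j ∈ range (2 * b + 1), C (g j) * (ev (pb j) * (E ((b : ℂ) + 1) - E ((b : ℂ) + 1 / 3))) +
        C (g (2 * b + 1)) * ((ev (pb (2 * b + 1)) * (E ((b : ℂ) + 1) - E ((b : ℂ) + 1 / 3)) -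
          E (((2 * b + 1 : ℕ) : ℂ) + 1 / 3)) -
          (rho (2 * b + 1) - E (((2 * b + 1 : ℕ) : ℂ) + 1 / 3))) := by
      have hC : ∀ c : ℂ, ev (Polynomial.C c) = C c := by
        intro c
        rw [ev, Polynomial.aeval_C]
        rfl
      rw [hG, map_sum, sum_range_succ, add_mul, sum_mul]
      simp only [map_mul, hC, mul_assoc]
      ring
    rw [e]
    apply Submodule.add_mem
    · apply Submodule.sum_mem
      intro j hj
      rw [mem_range] at hj
      exact mem_W_C _ _ _ (ev_mem b j hj)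
    · apply mem_W_C
      exact Submodule.sub_mem _ (ev_top_mem b) (rho_mem _)
  · apply dvd_sub
    · obtain ⟨p, rfl⟩ := hd
      rw [pow_succ]
      exact mul_dvd_mul (dvd_ev_pow _ _) (X_dvd_sub _ _)
    · exact Dvd.dvd.mul_left (dvd_rho _) _

end Pool.Agent.H35.Cardy
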